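import Pool.Agent.H36.MHDDefs
import Pool.Agent.H36.MHD.Calc

/-!
# MP_544ca6_an: weak solutions of the gradient LES model, definitions

`V3`, `dt`, `dx`, `pd`, `cyl`, `dot`, `InH1`, `InH10`, `InH`, `InV` are from `H36.MHD`.
-/

open MeasureTheory Set Filter Topology
open scoped ContDiff ENNReal
open H36.MHD

noncomputable section

namespace H37.LES

/-- space-time -/
abbrev X : Type := ℝ × V3

/-- Weak solution of the gradient (Taylor) LES model with Reynolds number `Re`, filter width `δ`,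
initial velocity `w₀` and force `f` on `Ω × (0,T)`. -/
def IsWeakSolution (Ω : Set V3) (Re δ T : ℝ) (w₀ : V3 → V3) (f w : ℝ → V3 → V3) : Prop :=
  ∃ G : ℝ → V3 → Fin 3 → Fin 3 → ℝ,
    MemLp (fun z : ℝ × V3 => w z.1 z.2) 2 (volume.restrict (cyl Ω T)) ∧
    MemLp (fun z : ℝ × V3 => G z.1 z.2) 2 (volume.restrict (cyl Ω T)) ∧
    (∀ᵐ t ∂(volume.restrict (Ioo 0 T)), InV Ω (w t) (G t)) ∧
    (∃ C, ∀ᵐ t ∂(volume.restrict (Ioo 0 T)), ∫ x in Ω, dot (w t x) (w t x) ≤ C) ∧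
    ∀ φ : ℝ × V3 → V3, ContDiff ℝ ∞ φ → HasCompactSupport φ → tsupport φ ⊆ Iio T ×ˢ Ω →
      (∀ z : ℝ × V3, 0 ≤ z.1 → ∑ j, dx j (fun y => φ y j) z = 0) →
      ∫ z in cyl Ω T,
        ((-∑ i, w z.1 z.2 i * dt (fun y => φ y i) z)
          + (∑ i, ∑ j, w z.1 z.2 j * G z.1 z.2 i j * φ z i)
          + 1 / Re * (∑ i, ∑ j, G z.1 z.2 i j * dx j (fun y => φ y i) z)
          - δ ^ 2 / 12 * (∑ i, ∑ j, (∑ l, G z.1 z.2 i l * G z.1 z.2 j l) * dx j (fun y => φ y i) z)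
          - dot (f z.1 z.2) (φ z))
        = ∫ x in Ω, dot (w₀ x) (φ (0, x))

/-- The data of the problem. -/
structure Prob where
  /-- domain -/
  Ω : Set V3
  hΩ : IsOpen Ω
  hb : Bornology.IsBounded Ω
  /-- final time -/
  T : ℝ
  hT : 0 < T
  /-- `1 / Re` -/
  nu : ℝ
  /-- `δ^2 / 12` -/
  al : ℝ
  hal : 0 < al
  /-- initial velocity and its gradient -/
  w0 : V3 → V3
  /-- gradient of the initial velocity -/
  G0 : V3 → Fin 3 → Fin 3 → ℝ
  hw0 : InV Ω w0 G0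
  /-- force -/
  f : X → V3
  hf : Integrable f (volume.restrict (cyl Ω T))

variable (P : Prob)

/-- the measure on the cylinder -/
abbrev Prob.μ : Measure X := volume.restrict (cyl P.Ω P.T)

/-- admissible test fields (in components) -/
structure Prob.IsTest (φ : Fin 3 → X → ℝ) : Prop where
  smooth : ∀ i, ContDiff ℝ ∞ (φ i)
  compact : ∀ i, HasCompactSupport (φ i)
  supp : ∀ i, tsupport (φ i) ⊆ Iio P.T ×ˢ P.Ω
  div : ∀ z : X, 0 ≤ z.1 → ∑ j, dx j (φ j) z = 0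

/-- admissible perturbations: smooth, divergence free, compactly supported in the cylinder -/
structure Prob.IsPert (V : Fin 3 → X → ℝ) : Prop where
  smooth : ∀ i, ContDiff ℝ ∞ (V i)
  compact : ∀ i, HasCompactSupport (V i)
  supp : ∀ i, tsupport (V i) ⊆ cyl P.Ω P.T
  div : ∀ z : X, ∑ j, dx j (V j) z = 0

/-- symmetric integrable matrix fields -/
structure Prob.IsErr (R : Fin 3 → Fin 3 → X → ℝ) : Prop where
  int : ∀ i j, Integrable (R i j) P.μ
  symm : ∀ i j z, R i j z = R j i z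

/-- `L^1` size of a matrix field -/
def Prob.L1 (R : Fin 3 → Fin 3 → X → ℝ) : ℝ := ∑ i, ∑ j, ∫ z, |R i j z| ∂P.μ

/-- the matrix field `R` tested with `φ` -/
def Prob.Bd (R : Fin 3 → Fin 3 → X → ℝ) (φ : Fin 3 → X → ℝ) : ℝ :=
  ∫ z, ∑ i, ∑ j, R i j z * dx j (φ i) z ∂P.μ

/-- velocity `w0 + V` -/
def Prob.W (V : Fin 3 → X → ℝ) (i : Fin 3) (z : X) : ℝ := P.w0 z.2 i + V i z

/-- gradient of `w0 + V` -/
def Prob.G (V : Fin 3 → X → ℝ) (i j : Fin 3) (z : X) : ℝ := P.G0 z.2 i j + dx j (V i) z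

/-- the residual of `w0 + V` tested with `φ` -/
def Prob.Res (V : Fin 3 → X → ℝ) (φ : Fin 3 → X → ℝ) : ℝ :=
  (∫ z, ((-∑ i, P.W V i z * dt (φ i) z)
      + (∑ i, ∑ j, P.W V j z * P.G V i j z * φ i z)
      + P.nu * (∑ i, ∑ j, P.G V i j z * dx j (φ i) z)
      - P.al * (∑ i, ∑ j, (∑ l, P.G V i l z * P.G V j l z) * dx j (φ i) z)
      - ∑ i, P.f z i * φ i z) ∂P.μ)
    - ∫ x in P.Ω, ∑ i, P.w0 x i * φ i (0, x)

/-- `l`-th coordinate unit vector; the third argument is a vector `b` with `b l = 0`;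
components of `b × e_l` -/
def mvec (l : Fin 3) (b : V3) : V3 := cross b (Pi.single l 1)

/-- The building block `λ^{-2} curl (a Φ(λ x_l) (b × e_l))`. -/
def block (a : X → ℝ) (Φ : ℝ → ℝ) (l : Fin 3) (b : V3) (lam : ℝ) (i : Fin 3) (z : X) : ℝ :=
  lam⁻¹ ^ 2 * curlOf (fun p j => dx j (fun y => a y * Φ (lam * y.2 l) * mvec l b p) z) i

end H37.LES
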