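import Pool.Agent.H62.LES_StageCore
import Pool.Agent.H36.LES_Final
import Pool.Agent.H90.LES_OneDir
import Pool.Agent.H63.LES_Zero
import Pool.Agent.H63.LES_Limit
import Pool.Agent.H21.LES.Approx
import Pool.Agent.H70.LES_Decomp

/-! # The sequence of approximate solutions and the limit objects, all inputs discharged -/

namespace H37.LES

theorem seqStatement : SeqStatement := fun P =>
  exists_seq_of (stage_of (one_dir P) (approx P) decomposition)
    (Zero.stage_zero_of P (antidiv P))

theorem limStatement : LimStatement := fun P V hV h1 h2 => limit_objects P V hV h1 h2

end H37.LES
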